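import Mathlib

set_option autoImplicit false

/-!
# Derivations extend along formally etale maps

Helper lemmas for the tangent space of a locus: a derivation of a ring `S` with values in a
`T`-module extends to `T`, if `T` is formally etale over `S`; and a derivation of a field which
kills a separating set is zero.
-/

namespace Pool.Agent.Lib.MP_0c183c_TD

open TensorProduct KaehlerDifferential

/-- A derivation extends along a formally etale map. -/
theorem exists_der_lift {R S T M : Type*} [CommRing R] [CommRing S] [CommRing T]
    [Algebra R S] [Algebra R T] [Algebra S T] [IsScalarTower R S T] [AddCommGroup M]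
    [Module R M] [Module S M] [Module T M] [IsScalarTower R S M] [IsScalarTower R T M]
    [IsScalarTower S T M] [Algebra.FormallyEtale S T] (d : Derivation R S M) :
    ∃ D' : Derivation R T M, ∀ s, D' (algebraMap S T s) = d s := by
  let l : Ω[S⁄R] →ₗ[S] M := d.liftKaehlerDifferential
  let l' : T ⊗[S] Ω[S⁄R] →ₗ[T] M := LinearMap.liftBaseChange T l
  let e := KaehlerDifferential.tensorKaehlerEquivOfFormallyEtale R S T
  refine ⟨(l' ∘ₗ e.symm.toLinearMap).compDer (D R T), fun s => ?_⟩
  have h := KaehlerDifferential.tensorKaehlerEquivOfFormallyEtale_symm_D_algebraMap R S T s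
  change l' (e.symm (D R T (algebraMap S T s))) = _
  change e.symm (D R T (algebraMap S T s)) = _ at h
  rw [h]
  simp [l', l]

/-- A derivation which kills a subfield over which the field is separable algebraic is zero. -/
theorem der_eq_zero_of_separable {R F L M : Type*} [CommRing R] [Field F] [Field L]
    [Algebra R F] [Algebra R L] [Algebra F L] [IsScalarTower R F L] [AddCommGroup M]
    [Module R M] [Module L M] [Algebra.IsSeparable F L]
    (d : Derivation R L M) (h : ∀ a : F, d (algebraMap F L a) = 0) : d = 0 := by
  ext a
  simp only [Derivation.coe_zero, Pi.zero_apply]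
  have hs : (minpoly F a).Separable := Algebra.IsSeparable.isSeparable F a
  have h1 : Polynomial.aeval a (minpoly F a) = 0 := minpoly.aeval F a
  have key : ∀ p : Polynomial F, d (Polynomial.aeval a p) =
      Polynomial.aeval a (Polynomial.derivative p) • d a := by
    intro p
    induction p using Polynomial.induction_on' with
    | add p q hp hq => simp [hp, hq, add_smul]
    | monomial n c =>
      rw [Polynomial.aeval_monomial, Derivation.leibniz, h, smul_zero, add_zero,
        Polynomial.derivative_monomial, Polynomial.aeval_monomial, Derivation.leibniz_pow]
      simp only [map_mul, map_natCast, ← Nat.cast_smul_eq_nsmul L, smul_smul]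
      ring_nf
  have h2 := key (minpoly F a)
  rw [h1, map_zero] at h2
  have h3 : Polynomial.aeval a (Polynomial.derivative (minpoly F a)) ≠ 0 :=
    hs.aeval_derivative_ne_zero h1
  have h4 : (Polynomial.aeval a (Polynomial.derivative (minpoly F a)) : L)⁻¹ •
      Polynomial.aeval a (Polynomial.derivative (minpoly F a)) • d a = 0 := by
    rw [← h2, smul_zero]
  rwa [smul_smul, inv_mul_cancel₀ h3, one_smul] at h4

end Pool.Agent.Lib.MP_0c183c_TD
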