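import Pool.Agent.Lib.MP_0c183c_TD.DerLift

set_option autoImplicit false
set_option linter.style.haveILetI false

/-!
# The tangent space of the locus of a point

`Tan K x` is the Zariski tangent space over `K` of the locus of `x : ι → Ω` at `x`. For a perfect
field `K` its dimension is the transcendence degree of `K(x)`.
-/

namespace Pool.Agent.Lib.MP_0c183c_TD

open MvPolynomial

variable {K Ω ι : Type*} [Field K] [Field Ω] [Algebra K Ω] [Fintype ι]

/-- The derivative of `f` at `x` in the direction `v`. -/
noncomputable def dd (x v : ι → Ω) (f : MvPolynomial ι K) : Ω :=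
  ∑ i, aeval x (pderiv i f) * v i

theorem dd_add (x v : ι → Ω) (f g : MvPolynomial ι K) : dd x v (f + g) = dd x v f + dd x v g := by
  simp [dd, add_mul, Finset.sum_add_distrib]

theorem dd_sub (x v : ι → Ω) (f g : MvPolynomial ι K) : dd x v (f - g) = dd x v f - dd x v g := by
  simp [dd, sub_mul, Finset.sum_sub_distrib]

theorem dd_C (x v : ι → Ω) (a : K) : dd x v (C a : MvPolynomial ι K) = 0 := by
  simp [dd]

theorem dd_smul (x v : ι → Ω) (a : K) (f : MvPolynomial ι K) :
    dd x v (a • f) = a • dd x v f := by
  simp [dd, Finset.smul_sum]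

theorem dd_mul (x v : ι → Ω) (f g : MvPolynomial ι K) :
    dd x v (f * g) = aeval x f * dd x v g + aeval x g * dd x v f := by
  simp only [dd, Derivation.leibniz, smul_eq_mul, map_add, map_mul, add_mul,
    Finset.sum_add_distrib, Finset.mul_sum]
  congr 1 <;> exact Finset.sum_congr rfl fun i _ => by ring

theorem dd_X [DecidableEq ι] (x v : ι → Ω) (i : ι) : dd x v (X i : MvPolynomial ι K) = v i := by
  simp [dd, pderiv_X, Pi.single_apply, Finset.sum_ite_eq]

/-- The tangent space at `x` of the locus of `x` over `K`. -/
noncomputable def Tan (K : Type*) [Field K] [Algebra K Ω] (x : ι → Ω) : Submodule Ω (ι → Ω) where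
  carrier := {v | ∀ f : MvPolynomial ι K, aeval x f = 0 → ∑ i, aeval x (pderiv i f) * v i = 0}
  add_mem' := by
    intro v w hv hw f hf
    simp only [Pi.add_apply, mul_add, Finset.sum_add_distrib]
    rw [hv f hf, hw f hf, add_zero]
  zero_mem' := by
    intro f _
    simp
  smul_mem' := by
    intro c v hv f hf
    have h := hv f hf
    simp only [Pi.smul_apply, smul_eq_mul]
    have e : ∑ i, aeval x (pderiv i f) * (c * v i) = c * ∑ i, aeval x (pderiv i f) * v i := by
      rw [Finset.mul_sum]
      exact Finset.sum_congr rfl fun i _ => by ring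
    rw [e, h, mul_zero]

theorem mem_tan {x v : ι → Ω} : v ∈ Tan K x ↔
    ∀ f : MvPolynomial ι K, aeval x f = 0 → ∑ i, aeval x (pderiv i f) * v i = 0 := Iff.rfl

theorem mem_tan' {x v : ι → Ω} : v ∈ Tan K x ↔
    ∀ f : MvPolynomial ι K, aeval x f = 0 → dd x v f = 0 := Iff.rfl

/-- The value of `f` at the dual point `x + ε v`. -/
theorem aeval_dual (x v : ι → Ω) (f : MvPolynomial ι K) :
    aeval (fun i => (TrivSqZeroExt.inl (x i) + TrivSqZeroExt.inr (v i) : DualNumber Ω)) f =
      TrivSqZeroExt.inl (aeval x f) + TrivSqZeroExt.inr (dd x v f) := by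
  classical
  induction f using MvPolynomial.induction_on with
  | C a =>
    rw [dd_C]
    simp only [algHom_C, TrivSqZeroExt.inr_zero, add_zero]
    exact TrivSqZeroExt.algebraMap_eq_inl' K Ω Ω a
  | add f g hf hg =>
    rw [map_add, hf, hg, map_add, dd_add, TrivSqZeroExt.inl_add, TrivSqZeroExt.inr_add]
    abel
  | mul_X f i hf =>
    rw [map_mul, hf, aeval_X, map_mul, aeval_X, dd_mul, dd_X, aeval_X]
    ext
    · simp
    · simp [mul_comm, add_comm]

theorem mem_tan_iff_dual {x v : ι → Ω} : v ∈ Tan K x ↔
    ∀ f : MvPolynomial ι K, aeval x f = 0 →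
      aeval (fun i => (TrivSqZeroExt.inl (x i) + TrivSqZeroExt.inr (v i) : DualNumber Ω)) f = 0 := by
  rw [mem_tan']
  refine forall_congr' fun f => forall_congr' fun hf => ?_
  rw [aeval_dual, hf, TrivSqZeroExt.inl_zero, zero_add]
  constructor
  · intro h
    rw [h, TrivSqZeroExt.inr_zero]
  · intro h
    have := congrArg TrivSqZeroExt.snd h
    simpa using this

/-- A tangent vector gives a derivation of `K[x]`. -/
theorem exists_der_adjoin {x v : ι → Ω} (hv : v ∈ Tan K x) :
    ∃ d : Derivation K (Algebra.adjoin K (Set.range x)) Ω,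
      ∀ i, d ⟨x i, Algebra.subset_adjoin ⟨i, rfl⟩⟩ = v i := by
  classical
  have hsurj : ∀ a : Algebra.adjoin K (Set.range x), ∃ f : MvPolynomial ι K, aeval x f = (a : Ω) := by
    have h0 : ∀ b ∈ Algebra.adjoin K (Set.range x), ∃ f : MvPolynomial ι K, aeval x f = b := by
      intro b hb
      rw [Algebra.adjoin_range_eq_range_aeval] at hb
      exact hb
    exact fun a => h0 a a.2
  choose g hg using hsurj
  have key : ∀ f h : MvPolynomial ι K, aeval x f = aeval x h → dd x v f = dd x v h := by
    intro f h hfh
    have h1 : aeval x (f - h) = 0 := by rw [map_sub, hfh, sub_self]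
    have h2 := (mem_tan'.1 hv) _ h1
    rw [dd_sub] at h2
    exact sub_eq_zero.1 h2
  let l : Algebra.adjoin K (Set.range x) →ₗ[K] Ω :=
    { toFun := fun a => dd x v (g a)
      map_add' := by
        intro a b
        rw [← dd_add]
        apply key
        rw [hg, map_add, hg, hg]
        rfl
      map_smul' := by
        intro c a
        rw [RingHom.id_apply, ← dd_smul]
        apply key
        rw [hg, map_smul, hg]
        rfl }
  refine ⟨Derivation.mk' l ?_, fun i => ?_⟩
  · intro a b
    change dd x v (g (a * b)) = a • dd x v (g b) + b • dd x v (g a)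
    have h1 : dd x v (g (a * b)) = dd x v (g a * g b) := by
      apply key
      rw [hg, map_mul, hg, hg]
      rfl
    rw [h1, dd_mul, hg, hg]
    rfl
  · change dd x v (g _) = v i
    rw [← dd_X (K := K) x v i]
    apply key
    rw [hg, aeval_X]

open IntermediateField

open scoped IntermediateField.algebraAdjoinAdjoin

/-- The evaluation of derivations at the coordinates. -/
noncomputable def evalDer (K : Type*) [Field K] [Algebra K Ω] (x : ι → Ω) :
    Derivation K (IntermediateField.adjoin K (Set.range x)) Ω →ₗ[Ω] (ι → Ω) where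
  toFun d i := d ⟨x i, IntermediateField.subset_adjoin K _ ⟨i, rfl⟩⟩
  map_add' _ _ := rfl
  map_smul' _ _ := rfl

theorem der_inv {L M : Type*} [Field L] [Algebra K L] [AddCommGroup M] [Module K M] [Module L M]
    (d : Derivation K L M) {a : L} (h : d a = 0) : d a⁻¹ = 0 := by
  by_cases ha : a = 0
  · rw [ha, inv_zero, map_zero]
  · have h1 : d (a * a⁻¹) = 0 := by rw [mul_inv_cancel₀ ha, Derivation.map_one_eq_zero]
    rw [Derivation.leibniz, h, smul_zero, add_zero] at h1
    have h2 := congrArg (fun m => a⁻¹ • m) h1
    simpa [smul_smul, inv_mul_cancel₀ ha] using h2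

omit [Fintype ι] in
theorem evalDer_injective (x : ι → Ω) : Function.Injective (evalDer K x) := by
  rw [injective_iff_map_eq_zero]
  intro d hd
  ext ⟨a, ha⟩
  simp only [Derivation.coe_zero, Pi.zero_apply]
  induction ha using IntermediateField.adjoin_induction with
  | mem y hy =>
    obtain ⟨i, rfl⟩ := hy
    exact congrFun hd i
  | algebraMap y => exact d.map_algebraMap y
  | add y z hy hz h1 h2 =>
    have := d.map_add ⟨y, hy⟩ ⟨z, hz⟩
    rw [h1, h2, add_zero] at this
    exact this
  | mul y z hy hz h1 h2 =>
    have := d.leibniz ⟨y, hy⟩ ⟨z, hz⟩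
    rw [h1, h2, smul_zero, smul_zero, add_zero] at this
    exact this
  | inv y hy h1 => exact der_inv d h1

theorem range_evalDer (x : ι → Ω) : LinearMap.range (evalDer K x) = Tan K x := by
  classical
  apply le_antisymm
  · rintro _ ⟨d, rfl⟩
    rw [mem_tan']
    intro f hf
    have key : ∀ f : MvPolynomial ι K,
        d (aeval (fun i => (⟨x i, IntermediateField.subset_adjoin K _ ⟨i, rfl⟩⟩ :
          IntermediateField.adjoin K (Set.range x))) f) = dd x (evalDer K x d) f := by
      intro f
      induction f using MvPolynomial.induction_on with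
      | C a => rw [algHom_C, d.map_algebraMap, dd_C]
      | add f g hf hg => rw [map_add, map_add, hf, hg, dd_add]
      | mul_X f i hf =>
        rw [map_mul, Derivation.leibniz, hf, aeval_X, dd_mul, dd_X, aeval_X]
        congr 1
        change _ * _ = _
        congr 1
        exact MvPolynomial.comp_aeval_apply
          (fun i => (⟨x i, IntermediateField.subset_adjoin K _ ⟨i, rfl⟩⟩ :
          IntermediateField.adjoin K (Set.range x)))
          (IntermediateField.adjoin K (Set.range x)).val f
    rw [← key]
    have h0 : (aeval (fun i => (⟨x i, IntermediateField.subset_adjoin K _ ⟨i, rfl⟩⟩ :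
          IntermediateField.adjoin K (Set.range x))) f) = 0 := by
      apply Subtype.ext
      exact (MvPolynomial.comp_aeval_apply
          (fun i => (⟨x i, IntermediateField.subset_adjoin K _ ⟨i, rfl⟩⟩ :
          IntermediateField.adjoin K (Set.range x)))
          (IntermediateField.adjoin K (Set.range x)).val f).trans hf
    rw [h0, map_zero]
  · intro v hv
    obtain ⟨d, hd⟩ := exists_der_adjoin hv
    haveI : Algebra.FormallyEtale (Algebra.adjoin K (Set.range x))
        (IntermediateField.adjoin K (Set.range x)) :=
      Algebra.FormallyEtale.of_isLocalization (nonZeroDivisors (Algebra.adjoin K (Set.range x)))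
    obtain ⟨d', hd'⟩ := exists_der_lift (R := K) (S := Algebra.adjoin K (Set.range x))
      (T := IntermediateField.adjoin K (Set.range x)) d
    refine ⟨d', ?_⟩
    funext i
    rw [← hd i, ← hd']
    rfl

theorem exists_der_basis {L : Type*} [Field L] [Algebra K L] (s : Finset L) [Algebra L Ω]
    [IsScalarTower K L Ω]
    (hs : IsTranscendenceBasis K ((↑) : s → L))
    (hsep : Algebra.IsSeparable (IntermediateField.adjoin K (s : Set L)) L) (w : s → Ω) :
    ∃ d : Derivation K L Ω, ∀ i : s, d (i : L) = w i := by
  classical
  let P := MvPolynomial s K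
  let A := Algebra.adjoin K (Set.range ((↑) : s → L))
  let e : P ≃ₐ[K] A := hs.1.aevalEquiv
  letI : Algebra P A := (e : P →+* A).toAlgebra
  letI : Algebra P L := ((algebraMap A L).comp (e : P →+* A)).toAlgebra
  letI : Algebra P Ω := ((algebraMap L Ω).comp (algebraMap P L)).toAlgebra
  haveI : IsScalarTower P A L := IsScalarTower.of_algebraMap_eq' rfl
  haveI : IsScalarTower P L Ω := IsScalarTower.of_algebraMap_eq' rfl
  haveI : IsScalarTower K P A := by
    apply IsScalarTower.of_algebraMap_eq
    intro a
    exact (e.commutes a).symm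
  haveI : IsScalarTower K P L := by
    apply IsScalarTower.of_algebraMap_eq
    intro a
    change algebraMap K L a = algebraMap A L (e (algebraMap K P a))
    rw [e.commutes]
    rfl
  haveI : IsScalarTower K P Ω := by
    apply IsScalarTower.of_algebraMap_eq
    intro a
    change algebraMap K Ω a = algebraMap L Ω (algebraMap P L (algebraMap K P a))
    rw [← IsScalarTower.algebraMap_apply K P L, ← IsScalarTower.algebraMap_apply K L Ω]
  haveI h1 : Algebra.FormallyEtale P A := by
    let e' : P ≃ₐ[P] A := { (e : P ≃+* A) with commutes' := fun r => rfl }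
    exact Algebra.FormallyEtale.of_equiv e'
  have hrange : Set.range ((↑) : s → L) = (s : Set L) := Subtype.range_coe
  haveI hsep' : Algebra.IsSeparable
      (IntermediateField.adjoin K (Set.range ((↑) : s → L))) L := by
    rw [hrange]
    exact hsep
  haveI h2 : Algebra.FormallyEtale A
      (IntermediateField.adjoin K (Set.range ((↑) : s → L))) :=
    Algebra.FormallyEtale.of_isLocalization (nonZeroDivisors A)
  haveI h2' : Algebra.FormallyEtale
      (IntermediateField.adjoin K (Set.range ((↑) : s → L))) L :=
    Algebra.FormallyEtale.of_isSeparable _ _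
  haveI h2'' : Algebra.FormallyEtale A L :=
    Algebra.FormallyEtale.comp A (IntermediateField.adjoin K (Set.range ((↑) : s → L))) L
  haveI h3 : Algebra.FormallyEtale P L := Algebra.FormallyEtale.comp P A L
  let d0 : Derivation K P Ω := MvPolynomial.mkDerivation K w
  obtain ⟨d, hd⟩ := exists_der_lift (R := K) (S := P) (T := L) d0
  refine ⟨d, fun i => ?_⟩
  have h4 := hd (X i)
  have h5 : algebraMap P L (X i) = (i : L) := by
    change algebraMap A L (e (X i)) = _
    have h6 := hs.1.aevalEquiv_apply_coe (X i)
    rw [aeval_X] at h6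
    exact h6
  rw [h5] at h4
  rw [h4]
  exact MvPolynomial.mkDerivation_X K w i

/-- Over a perfect field the dimension of the tangent space of the locus of a point at this point
is the transcendence degree of the point. -/
theorem finrank_tan [PerfectField K] (x : ι → Ω) :
    Module.finrank Ω (Tan K x) =
      Cardinal.toNat (Algebra.trdeg K (IntermediateField.adjoin K (Set.range x))) := by
  classical
  let L := IntermediateField.adjoin K (Set.range x)
  haveI : Algebra.EssFiniteType K L := by
    rw [IntermediateField.essFiniteType_iff]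
    exact IntermediateField.fg_adjoin_of_finite (Set.finite_range x)
  obtain ⟨s, hs, hsep⟩ := exists_isTranscendenceBasis_and_isSeparable_of_perfectField K L
  let Ψ : Derivation K L Ω →ₗ[Ω] (s → Ω) :=
    { toFun := fun d i => d (i : L)
      map_add' := fun _ _ => rfl
      map_smul' := fun _ _ => rfl }
  have hinj : Function.Injective Ψ := by
    rw [injective_iff_map_eq_zero]
    intro d hd
    apply der_eq_zero_of_separable (F := IntermediateField.adjoin K (s : Set L)) d
    rintro ⟨a, ha⟩
    change d a = 0
    induction ha using IntermediateField.adjoin_induction with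
    | mem y hy => exact congrFun hd ⟨y, hy⟩
    | algebraMap y => exact d.map_algebraMap y
    | add y z hy hz h1 h2 => rw [d.map_add, h1, h2, add_zero]
    | mul y z hy hz h1 h2 => rw [d.leibniz, h1, h2, smul_zero, smul_zero, add_zero]
    | inv y hy h1 => exact der_inv d h1
  have hsurj : Function.Surjective Ψ := by
    intro w
    obtain ⟨d, hd⟩ := exists_der_basis (Ω := Ω) s hs hsep w
    exact ⟨d, funext hd⟩
  have h1 : Module.finrank Ω (Derivation K L Ω) = s.card := by
    rw [(LinearEquiv.ofBijective Ψ ⟨hinj, hsurj⟩).finrank_eq]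
    simp
  have h2 : Module.finrank Ω (Tan K x) = Module.finrank Ω (Derivation K L Ω) := by
    rw [← range_evalDer]
    exact LinearMap.finrank_range_of_inj (evalDer_injective x)
  rw [h2, h1, ← hs.cardinalMk_eq_trdeg]
  simp

end Pool.Agent.Lib.MP_0c183c_TD
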