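import Pool.Agent.Lib.MP_0c183c_TD.Tan

set_option autoImplicit false
set_option linter.style.haveILetI false

/-!
# Tangent spaces of loci of subfamilies

For a family `z : ι → Ω` and a finite set `C` of indices, `TanC k z C` is the tangent space of the
locus over `k` of the subfamily `C`, as a space of vectors supported on `C`.
-/

namespace Pool.Agent.Lib.MP_0c183c_TD

open MvPolynomial

variable {k Ω ι : Type*} [Field k] [Field Ω] [Algebra k Ω]

/-- The transcendence degree of the subfamily `C`. -/
noncomputable def td (k : Type*) [Field k] [Algebra k Ω] (z : ι → Ω) (C : Finset ι) : ℕ :=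
  Cardinal.toNat (Algebra.trdeg k (IntermediateField.adjoin k (z '' (C : Set ι))))

/-- The relations of the subfamily `C`. -/
def rel (k : Type*) [Field k] [Algebra k Ω] (z : ι → Ω) (C : Finset ι) :
    Set (MvPolynomial ι k) :=
  {p | p.vars ⊆ C ∧ aeval z p = 0}

theorem rel_mono {z : ι → Ω} {C' C : Finset ι} (h : C' ⊆ C) : rel k z C' ⊆ rel k z C :=
  fun _ hp => ⟨hp.1.trans h, hp.2⟩

/-- The tangent space of the locus of the subfamily `C`. -/
noncomputable def TanC (k : Type*) [Field k] [Algebra k Ω] (z : ι → Ω) (C : Finset ι) :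
    Submodule Ω (ι → Ω) where
  carrier := {v | (∀ i, i ∉ C → v i = 0) ∧
    ∀ p ∈ rel k z C, ∑ i ∈ C, v i * aeval z (pderiv i p) = 0}
  add_mem' := by
    rintro v w ⟨hv0, hv⟩ ⟨hw0, hw⟩
    refine ⟨fun i hi => by simp [hv0 i hi, hw0 i hi], fun p hp => ?_⟩
    simp only [Pi.add_apply, add_mul, Finset.sum_add_distrib]
    rw [hv p hp, hw p hp, add_zero]
  zero_mem' := by
    refine ⟨fun i _ => rfl, fun p _ => ?_⟩
    simp
  smul_mem' := by
    rintro c v ⟨hv0, hv⟩
    refine ⟨fun i hi => by simp [hv0 i hi], fun p hp => ?_⟩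
    simp only [Pi.smul_apply, smul_eq_mul, mul_assoc]
    rw [← Finset.mul_sum, hv p hp, mul_zero]

theorem mem_tanC {z : ι → Ω} {C : Finset ι} {v : ι → Ω} : v ∈ TanC k z C ↔
    (∀ i, i ∉ C → v i = 0) ∧
      ∀ p ∈ rel k z C, ∑ i ∈ C, v i * aeval z (pderiv i p) = 0 := Iff.rfl

theorem pderiv_eq_zero_of_not_mem {p : MvPolynomial ι k} {i : ι} (h : i ∉ p.vars) :
    pderiv i p = 0 := by
  classical
  exact pderiv_eq_zero_of_notMem_vars h

/-- Membership in terms of the family on the subtype. -/
theorem mem_tanC_iff {z : ι → Ω} {C : Finset ι} {v : ι → Ω} : v ∈ TanC k z C ↔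
    (∀ i, i ∉ C → v i = 0) ∧ (fun i : C => v i) ∈ Tan k (fun i : C => z i) := by
  classical
  rw [mem_tanC]
  refine and_congr_right fun _ => ?_
  rw [mem_tan]
  constructor
  · intro h f hf
    have h1 : rename ((↑) : C → ι) f ∈ rel k z C := by
      refine ⟨?_, ?_⟩
      · intro i hi
        have := vars_rename ((↑) : C → ι) f hi
        rw [Finset.mem_image] at this
        obtain ⟨j, _, rfl⟩ := this
        exact j.2
      · rw [aeval_rename]
        exact hf
    have h2 := h _ h1
    rw [← Finset.sum_coe_sort] at h2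
    rw [← h2]
    refine Finset.sum_congr rfl fun i _ => ?_
    rw [pderiv_rename Subtype.val_injective, aeval_rename, mul_comm]
    rfl
  · intro h p hp
    have h0 : ∃ q : MvPolynomial C k, rename ((↑) : C → ι) q = p := by
      apply exists_rename_eq_of_vars_subset_range p ((↑) : C → ι) Subtype.val_injective
      intro i hi
      exact ⟨⟨i, hp.1 hi⟩, rfl⟩
    obtain ⟨q, rfl⟩ := h0
    have h1 : aeval (fun i : C => z i) q = 0 := by
      have := hp.2
      rw [aeval_rename] at this
      exact this
    have h2 := h q h1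
    rw [← Finset.sum_coe_sort, ← h2]
    refine Finset.sum_congr rfl fun i _ => ?_
    rw [pderiv_rename Subtype.val_injective, aeval_rename, mul_comm]
    rfl

/-- The tangent space of a subfamily is the tangent space of the family on the subtype. -/
noncomputable def tanEquiv (k : Type*) [Field k] [Algebra k Ω] (z : ι → Ω) (C : Finset ι) :
    TanC k z C ≃ₗ[Ω] Tan k (fun i : C => z i) := by
  classical
  exact
  { toFun := fun v => ⟨fun i => v.1 i, (mem_tanC_iff.1 v.2).2⟩
    map_add' := fun _ _ => rfl
    map_smul' := fun _ _ => rfl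
    invFun := fun w => ⟨fun i => if h : i ∈ C then w.1 ⟨i, h⟩ else 0, by
      rw [mem_tanC_iff]
      refine ⟨fun i hi => dif_neg hi, ?_⟩
      have : (fun i : C => if h : (i : ι) ∈ C then w.1 ⟨i, h⟩ else 0) = w.1 := by
        funext i
        rw [dif_pos i.2]
      rw [this]
      exact w.2⟩
    left_inv := by
      intro v
      apply Subtype.ext
      funext i
      by_cases h : i ∈ C
      · simp [h]
      · simp [h, (mem_tanC_iff.1 v.2).1 i h]
    right_inv := by
      intro w
      apply Subtype.ext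
      funext i
      simp }

/-- The dimension of the tangent space is the transcendence degree. -/
theorem finrank_tanC [PerfectField k] (z : ι → Ω) (C : Finset ι) :
    Module.finrank Ω (TanC k z C) = td k z C := by
  rw [(tanEquiv k z C).finrank_eq, finrank_tan, td]
  have h : Set.range (fun i : C => z i) = z '' (C : Set ι) := by
    ext a
    simp
  rw [h]

instance (z : ι → Ω) (C : Finset ι) : FiniteDimensional Ω (TanC k z C) :=
  LinearEquiv.finiteDimensional (tanEquiv k z C).symm

/-- The restriction of vectors to `C'`. -/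
noncomputable def restr (C' : Finset ι) : (ι → Ω) →ₗ[Ω] (ι → Ω) := by
  classical
  exact
  { toFun := fun v i => if i ∈ C' then v i else 0
    map_add' := by
      intro v w
      funext i
      by_cases h : i ∈ C' <;> simp [h]
    map_smul' := by
      intro c v
      funext i
      by_cases h : i ∈ C' <;> simp [h] }

theorem restr_apply_mem {C' : Finset ι} {v : ι → Ω} {i : ι} (h : i ∈ C') :
    restr C' v i = v i := by
  simp [restr, h]

theorem restr_apply_not_mem {C' : Finset ι} {v : ι → Ω} {i : ι} (h : i ∉ C') :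
    restr C' v i = 0 := by
  simp [restr, h]

/-- Restriction of tangent vectors. -/
theorem restr_mem_tanC {z : ι → Ω} {C C' : Finset ι} (h : C' ⊆ C) {v : ι → Ω}
    (hv : v ∈ TanC k z C) : restr C' v ∈ TanC k z C' := by
  classical
  refine ⟨fun i hi => restr_apply_not_mem hi, fun p hp => ?_⟩
  have h1 := hv.2 p (rel_mono h hp)
  rw [← h1]
  rw [← Finset.sum_subset h]
  · exact Finset.sum_congr rfl fun i hi => by rw [restr_apply_mem hi]
  · intro i _ hi
    rw [pderiv_eq_zero_of_not_mem (fun h' => hi (hp.1 h')), map_zero, mul_zero]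

/-- The restriction map between tangent spaces. -/
noncomputable def tanRestr (k : Type*) [Field k] [Algebra k Ω] (z : ι → Ω) {C C' : Finset ι}
    (h : C' ⊆ C) : TanC k z C →ₗ[Ω] TanC k z C' :=
  (restr C').restrict fun _ hv => restr_mem_tanC h hv

/-- The tangent vectors which vanish on `C'`. -/
noncomputable def TanRel (k : Type*) [Field k] [Algebra k Ω] (z : ι → Ω) (C C' : Finset ι) :
    Submodule Ω (ι → Ω) where
  carrier := {v | v ∈ TanC k z C ∧ ∀ i ∈ C', v i = 0}
  add_mem' := by
    rintro v w ⟨hv, hv0⟩ ⟨hw, hw0⟩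
    exact ⟨add_mem hv hw, fun i hi => by simp [hv0 i hi, hw0 i hi]⟩
  zero_mem' := ⟨zero_mem _, fun _ _ => rfl⟩
  smul_mem' := by
    rintro c v ⟨hv, hv0⟩
    exact ⟨Submodule.smul_mem _ c hv, fun i hi => by simp [hv0 i hi]⟩

theorem mem_tanRel {z : ι → Ω} {C C' : Finset ι} {v : ι → Ω} :
    v ∈ TanRel k z C C' ↔ v ∈ TanC k z C ∧ ∀ i ∈ C', v i = 0 := Iff.rfl

/-- The space of tangent vectors which vanish on a subfamily is large. -/
theorem td_le_finrank_tanRel [PerfectField k] (z : ι → Ω) {C C' : Finset ι} (h : C' ⊆ C) :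
    td k z C ≤ Module.finrank Ω (TanRel k z C C') + td k z C' := by
  classical
  have h1 := LinearMap.finrank_range_add_finrank_ker (tanRestr k z h)
  have h2 : Module.finrank Ω (LinearMap.range (tanRestr k z h)) ≤
      Module.finrank Ω (TanC k z C') := Submodule.finrank_le _
  have h3 : Module.finrank Ω (LinearMap.ker (tanRestr k z h)) ≤
      Module.finrank Ω (TanRel k z C C') := by
    have hle : TanRel k z C C' ≤ TanC k z C := fun v hv => hv.1
    haveI : FiniteDimensional Ω (TanRel k z C C') := Submodule.finiteDimensional_of_le hle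
    let f : LinearMap.ker (tanRestr k z h) →ₗ[Ω] TanRel k z C C' :=
      { toFun := fun v => ⟨v.1.1, v.1.2, by
          intro i hi
          have h4 : tanRestr k z h v.1 = 0 := v.2
          have h5 := congrArg (fun u => u.1 i) h4
          have h6 : restr C' v.1.1 i = 0 := h5
          rwa [restr_apply_mem hi] at h6⟩
        map_add' := fun _ _ => rfl
        map_smul' := fun _ _ => rfl }
    apply LinearMap.finrank_le_finrank_of_injective (f := f)
    intro v w hvw
    apply Subtype.ext
    apply Subtype.ext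
    have h7 := congrArg (fun u : TanRel k z C C' => (u : ι → Ω)) hvw
    exact h7
  rw [finrank_tanC] at h1 h2
  omega

/-- A tangent vector comes from a derivation of the field of the family. -/
theorem exists_der_tanC {z : ι → Ω} {C : Finset ι} {v : ι → Ω} (hv : v ∈ TanC k z C) :
    ∃ d : Derivation k (IntermediateField.adjoin k (z '' (C : Set ι))) Ω,
      ∀ i (hi : i ∈ C), d ⟨z i, IntermediateField.subset_adjoin k _ ⟨i, hi, rfl⟩⟩ = v i := by
  classical
  have h1 := (mem_tanC_iff.1 hv).2
  rw [← range_evalDer] at h1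
  obtain ⟨d, hd⟩ := h1
  have h : Set.range (fun i : C => z i) = z '' (C : Set ι) := by
    ext a
    simp
  have key : ∀ (S : Set Ω) (_ : S = Set.range (fun i : C => z i)) (hS : ∀ i ∈ C, z i ∈ S),
      ∃ d : Derivation k (IntermediateField.adjoin k S) Ω,
      ∀ i (hi : i ∈ C), d ⟨z i, IntermediateField.subset_adjoin k _ (hS i hi)⟩ = v i := by
    rintro S rfl hS
    exact ⟨d, fun i hi => congrFun hd ⟨i, hi⟩⟩
  exact key _ h.symm fun i hi => ⟨i, hi, rfl⟩

/-- Rank lemma: let `M` be a matrix of coordinates in `C`, and `v` a tangent vector. For every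
kernel vector `κ` of `M` the vector `v[M] κ` is in the column space of `M`. -/
theorem tanC_kernel {z : ι → Ω} {C : Finset ι} {v : ι → Ω} (hv : v ∈ TanC k z C)
    {m n : Type*} [Fintype m] [Fintype n] (e : m → n → ι) (he : ∀ a b, e a b ∈ C)
    {κ : n → Ω} (hκ : ∀ a, ∑ b, z (e a b) * κ b = 0) :
    ∃ c : n → Ω, ∀ a, ∑ b, v (e a b) * κ b = ∑ b, z (e a b) * c b := by
  classical
  obtain ⟨d, hd⟩ := exists_der_tanC hv
  let L := IntermediateField.adjoin k (z '' (C : Set ι))
  let B := Module.Free.chooseBasis L Ω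
  let M : m → n → L := fun a b => ⟨z (e a b), IntermediateField.subset_adjoin k _ ⟨_, he a b, rfl⟩⟩
  have hM : ∀ a b, d (M a b) = v (e a b) := fun a b => hd _ (he a b)
  -- the coordinates of `κ`
  let q : n → Module.Free.ChooseBasisIndex L Ω → L := fun b β => B.repr (κ b) β
  have hq : ∀ β a, ∑ b, M a b * q b β = 0 := by
    intro β a
    have h1 : B.repr (∑ b, M a b • κ b) β = 0 := by
      have h2 : ∑ b, M a b • κ b = 0 := hκ a
      rw [h2, map_zero]
      rfl
    rw [map_sum, Finsupp.finsetSum_apply] at h1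
    rw [← h1]
    refine Finset.sum_congr rfl fun b _ => ?_
    rw [map_smul]
    rfl
  let S : Finset (Module.Free.ChooseBasisIndex L Ω) :=
    Finset.univ.biUnion fun b => (B.repr (κ b)).support
  have hκ' : ∀ b, κ b = ∑ β ∈ S, q b β • B β := by
    intro b
    have h1 : κ b = ∑ β ∈ (B.repr (κ b)).support, B.repr (κ b) β • B β := by
      have := B.linearCombination_repr (κ b)
      rw [Finsupp.linearCombination_apply, Finsupp.sum] at this
      exact this.symm
    conv_lhs => rw [h1]
    apply Finset.sum_subset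
    · intro β hβ
      exact Finset.mem_biUnion.2 ⟨b, Finset.mem_univ _, hβ⟩
    · intro β _ hβ
      rw [Finsupp.notMem_support_iff.1 hβ, zero_smul]
  refine ⟨fun b => - ∑ β ∈ S, B β * d (q b β), fun a => ?_⟩
  have h3 : ∀ β, ∑ b, v (e a b) * (q b β : Ω) = - ∑ b, z (e a b) * d (q b β) := by
    intro β
    have h4 : d (∑ b, M a b * q b β) = 0 := by rw [hq, map_zero]
    rw [map_sum] at h4
    have h5 : ∀ b, d (M a b * q b β) = z (e a b) * d (q b β) + (q b β : Ω) * v (e a b) := by
      intro b
      rw [Derivation.leibniz, hM]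
      rfl
    simp only [h5, Finset.sum_add_distrib] at h4
    rw [eq_neg_iff_add_eq_zero, add_comm, ← h4]
    congr 1
    exact Finset.sum_congr rfl fun b _ => mul_comm _ _
  calc ∑ b, v (e a b) * κ b = ∑ b, ∑ β ∈ S, v (e a b) * (q b β • B β) := by
        refine Finset.sum_congr rfl fun b _ => ?_
        conv_lhs => rw [hκ' b]
        rw [Finset.mul_sum]
    _ = ∑ β ∈ S, ∑ b, v (e a b) * (q b β • B β) := Finset.sum_comm
    _ = ∑ β ∈ S, (B β) * ∑ b, v (e a b) * (q b β : Ω) := by
        refine Finset.sum_congr rfl fun β _ => ?_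
        rw [Finset.mul_sum]
        refine Finset.sum_congr rfl fun b _ => ?_
        have : (q b β • B β : Ω) = (q b β : Ω) * B β := rfl
        rw [this]
        ring
    _ = ∑ β ∈ S, (B β) * (- ∑ b, z (e a b) * d (q b β)) := by
        refine Finset.sum_congr rfl fun β _ => ?_
        rw [h3]
    _ = ∑ β ∈ S, ∑ b, - (z (e a b) * (B β * d (q b β))) := by
        refine Finset.sum_congr rfl fun β _ => ?_
        rw [mul_neg, Finset.mul_sum, ← Finset.sum_neg_distrib]
        exact Finset.sum_congr rfl fun b _ => by ring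
    _ = ∑ b, ∑ β ∈ S, - (z (e a b) * (B β * d (q b β))) := Finset.sum_comm
    _ = ∑ b, z (e a b) * (- ∑ β ∈ S, B β * d (q b β)) := by
        refine Finset.sum_congr rfl fun b _ => ?_
        rw [mul_neg, Finset.mul_sum, ← Finset.sum_neg_distrib]

/-- Rank lemma, two-sided form. -/
theorem tanC_kernel_kernel {z : ι → Ω} {C : Finset ι} {v : ι → Ω} (hv : v ∈ TanC k z C)
    {m n : Type*} [Fintype m] [Fintype n] (e : m → n → ι) (he : ∀ a b, e a b ∈ C)
    {l : m → Ω} (hl : ∀ b, ∑ a, l a * z (e a b) = 0)
    {κ : n → Ω} (hκ : ∀ a, ∑ b, z (e a b) * κ b = 0) :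
    ∑ a, ∑ b, l a * v (e a b) * κ b = 0 := by
  obtain ⟨c, hc⟩ := tanC_kernel hv e he hκ
  have h1 : ∀ a, ∑ b, l a * v (e a b) * κ b = ∑ b, l a * z (e a b) * c b := by
    intro a
    have h2 := congrArg (fun u => l a * u) (hc a)
    simp only [Finset.mul_sum] at h2
    simpa [mul_assoc] using h2
  simp only [h1]
  rw [Finset.sum_comm]
  refine Finset.sum_eq_zero fun b _ => ?_
  rw [← Finset.sum_mul, hl b, zero_mul]

/-- Transport of tangent vectors by a field homomorphism. -/
theorem map_mem_tanC {Ω' : Type*} [Field Ω'] [Algebra k Ω'] (σ : Ω →ₐ[k] Ω') {z : ι → Ω}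
    {C : Finset ι} {v : ι → Ω} : (fun i => σ (v i)) ∈ TanC k (fun i => σ (z i)) C ↔
      v ∈ TanC k z C := by
  have hval : ∀ p : MvPolynomial ι k, aeval (fun i => σ (z i)) p = σ (aeval z p) := by
    intro p
    exact (MvPolynomial.comp_aeval_apply z σ p).symm
  have hrel : rel k (fun i => σ (z i)) C = rel k z C := by
    ext p
    simp only [rel, Set.mem_ofPred_eq, hval]
    refine and_congr_right fun _ => ?_
    exact map_eq_zero_iff σ σ.injective
  rw [mem_tanC, mem_tanC, hrel]
  refine and_congr (forall_congr' fun i => forall_congr' fun _ => map_eq_zero_iff σ σ.injective) ?_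
  refine forall_congr' fun p => forall_congr' fun _ => ?_
  simp only [hval, ← map_mul, ← map_sum]
  exact map_eq_zero_iff σ σ.injective

/-- Transport by a ring homomorphism, over a prime field. -/
theorem map_mem_tanC_zmod {p : ℕ} [Fact p.Prime] {Ω Ω' : Type*} [Field Ω] [Field Ω']
    [Algebra (ZMod p) Ω] [Algebra (ZMod p) Ω'] (σ : Ω →+* Ω') {z : ι → Ω}
    {C : Finset ι} {v : ι → Ω} :
    (fun i => σ (v i)) ∈ TanC (ZMod p) (fun i => σ (z i)) C ↔ v ∈ TanC (ZMod p) z C := by
  let σ' : Ω →ₐ[ZMod p] Ω' :=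
    { σ with
      commutes' := fun r => DFunLike.congr_fun
        (Subsingleton.elim (σ.comp (algebraMap (ZMod p) Ω)) (algebraMap (ZMod p) Ω')) r }
  exact map_mem_tanC σ'

end Pool.Agent.Lib.MP_0c183c_TD
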